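import Pool.Agent.Lib.MP_d11cf5_gt.Sorgenfrey
import Pool.Agent.Lib.MP_d11cf5_gt.SorgenfreyNot
import Pool.Agent.Lib.MP_d11cf5_gt.FourPoints
import Pool.Agent.Lib.MP_d11cf5_gt.NotInterval

/-!
# The classes of the induced topologies are different

The Sorgenfrey line, and also the disjoint sum of `[0, 1]`, `(1, 2)` and `[2, 3]`, is a `T₁` space
which is induced by a semiorder and is not preorderable. There is an interval order on four points
whose topology is induced by no semiorder. The subspace `(0, 1) ∪ {2}` of the real line, a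
generalized ordered space, is induced by no interval order.
-/

set_option autoImplicit false

namespace Pool.Agent.Results.MP_d11cf5_gt.Examples

open Pool.Agent.Lib.MP_d11cf5_gt

theorem result :
    (@T1Space ℝ sorgenfrey ∧ (∃ r : ℝ → ℝ → Prop, IsSemiorder r ∧ sorgenfrey = relTopology r) ∧
      ¬ IsPreorderable sorgenfrey) ∧
    (@T1Space (Set.Icc (0 : ℝ) 3) threePieces ∧
      (∃ r : Set.Icc (0 : ℝ) 3 → Set.Icc (0 : ℝ) 3 → Prop,
        IsSemiorder r ∧ threePieces = relTopology r) ∧ ¬ IsPreorderable threePieces) ∧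
    (∃ r : Fin 4 → Fin 4 → Prop, IsIntervalOrder r ∧
      ¬ ∃ s : Fin 4 → Fin 4 → Prop, IsSemiorder s ∧ relTopology r = relTopology s) ∧
    (IsGeneralizedOrdered
        (instTopologicalSpaceSubtype : TopologicalSpace {x : ℝ // (0 < x ∧ x < 1) ∨ x = 2}) ∧
      ¬ ∃ r : {x : ℝ // (0 < x ∧ x < 1) ∨ x = 2} → {x : ℝ // (0 < x ∧ x < 1) ∨ x = 2} → Prop,
        IsIntervalOrder r ∧ (instTopologicalSpaceSubtype :
          TopologicalSpace {x : ℝ // (0 < x ∧ x < 1) ∨ x = 2}) = relTopology r) := by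
  refine ⟨⟨?_, sorgenfrey_semiorder, sorgenfrey_not_preorderable⟩, ⟨?_, ⟨tri, tri_semiorder,
    threePieces_eq⟩, ?_⟩, ⟨fourRel, fourRel_isIntervalOrder, fourPoints⟩, notInterval⟩
  · refine @T1Space.mk ℝ sorgenfrey fun x => ?_
    refine (@isOpen_compl_iff ℝ {x} sorgenfrey).1 ?_
    have hx : ({x}ᶜ : Set ℝ) =
        ⋃₀ {S : Set ℝ | (∃ a b : ℝ, S = Set.Ico a b) ∧ x ∉ S} := by
      ext y
      constructor
      · intro hy
        rcases lt_or_gt_of_ne (show y ≠ x from hy) with h | h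
        · exact ⟨Set.Ico y x, ⟨⟨y, x, rfl⟩, fun h1 => lt_irrefl x h1.2⟩, le_rfl, h⟩
        · exact ⟨Set.Ico y (y + 1), ⟨⟨y, y + 1, rfl⟩, fun h1 => absurd h1.1 (not_le.2 h)⟩,
            le_rfl, lt_add_one y⟩
      · rintro ⟨S, ⟨-, hxS⟩, hyS⟩ h1
        rw [Set.mem_singleton_iff.1 h1] at hyS
        exact hxS hyS
    rw [hx]
    refine @isOpen_sUnion ℝ sorgenfrey _ ?_
    rintro S ⟨⟨a, b, rfl⟩, -⟩
    exact SNP.ico_open a b
  · rw [threePieces_eq]
    exact tri_t1
  · rintro ⟨s, ⟨htot, htrans⟩, hs⟩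
    refine tri_not_preorderable ⟨s, htot, htrans, ?_⟩
    rw [← threePieces_eq]
    exact hs

end Pool.Agent.Results.MP_d11cf5_gt.Examples
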