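import Pool.Agent.Lib.MP_d11cf5_gt.Proof
import Pool.Agent.Lib.MP_d11cf5_gt.TwoChains

/-!
# The topologies induced by interval orders

A topology on `X` is induced by an interval order if and only if it has a subbasis `D ∪ V`, where
`D` and `V` are chains of sets closed under arbitrary unions, with an order reversing bijection
`φ : D → V` such that no point of `X` lies in all the sets `A ∪ φ A`, `A ∈ D`.

An equivalent criterion: there are a chain `A` of open sets and a map `φ` from `A` to the open sets,
with `U` and `φ U` disjoint and with `U ⊆ V` if and only if `φ V ⊆ φ U`, such that the sets `U` and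
`φ U` form a subbasis and, for every point `x`, there are a least and a greatest `U` in `A` with
`x ∉ U ∪ φ U`.
-/

namespace Pool.Agent.Results.MP_d11cf5_gt.IntervalOrders

open Pool.Agent.Lib.MP_d11cf5_gt

theorem result {X : Type*} (τ : TopologicalSpace X) :
    ((∃ r : X → X → Prop, IsIntervalOrder r ∧ τ = relTopology r) ↔
      ∃ (D V : Set (Set X)) (φ : Set X → Set X), IsDualChains τ D V φ) ∧
    ((∃ r : X → X → Prop, IsIntervalOrder r ∧ τ = relTopology r) ↔
      ∃ (A : Set (Set X)) (φ : Set X → Set X), IsBiScale τ A φ) := by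
  refine ⟨⟨?_, ?_⟩, ?_, ?_⟩
  · rintro ⟨r, hr, rfl⟩
    exact ⟨_, _, _, isDualChains hr⟩
  · rintro ⟨D, V, φ, h⟩
    exact ⟨_, h.isIntervalOrder, h.topology_eq⟩
  · rintro ⟨r, hr, rfl⟩
    exact ⟨_, _, isBiScale_of_intervalOrder hr⟩
  · rintro ⟨A, φ, h⟩
    exact ⟨h.rel, h.isIntervalOrder, h.topology_eq⟩

end Pool.Agent.Results.MP_d11cf5_gt.IntervalOrders
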