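import Pool.Agent.Lib.MP_d11cf5_gt.Proof
import Pool.Agent.Lib.MP_d11cf5_gt.TwoChains

/-!
# The topologies induced by semiorders

A topology on `X` is induced by a semiorder if and only if it has a subbasis `D ∪ V`, where `D` and
`V` are chains of sets closed under arbitrary unions, such that any two sets `A ∈ D`, `B ∈ V` are
disjoint or cover `X`, and with an order reversing bijection `φ : D → V` such that no point of `X`
lies in all the sets `A ∪ φ A`, `A ∈ D`.

An equivalent criterion: there are a chain `A` of open sets and a map `φ` as in the second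
characterization of the topologies induced by interval orders such that, moreover, there are no
points `x`, `y` for which the members of `A` missing `y` lie strictly between the least and the
greatest member missing `x`.
-/

namespace Pool.Agent.Results.MP_d11cf5_gt.Semiorders

open Pool.Agent.Lib.MP_d11cf5_gt

theorem result {X : Type*} (τ : TopologicalSpace X) :
    ((∃ r : X → X → Prop, IsSemiorder r ∧ τ = relTopology r) ↔
      ∃ (D V : Set (Set X)) (φ : Set X → Set X), IsDualChains τ D V φ ∧
        ∀ A ∈ D, ∀ B ∈ V, A ∩ B = ∅ ∨ A ∪ B = Set.univ) ∧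
    ((∃ r : X → X → Prop, IsSemiorder r ∧ τ = relTopology r) ↔
      ∃ (A : Set (Set X)) (φ : Set X → Set X), IsBiScale τ A φ ∧
        ∀ x y, ∀ Rx Gx Ry Gy : Set X,
          IsLeast (missing A φ x) Rx → IsGreatest (missing A φ x) Gx →
          IsLeast (missing A φ y) Ry → IsGreatest (missing A φ y) Gy →
            ¬ (Gy ⊂ Gx ∧ Rx ⊂ Ry)) := by
  refine ⟨⟨?_, ?_⟩, ?_, ?_⟩
  · rintro ⟨r, hr, rfl⟩
    refine ⟨_, _, _, isDualChains hr.toIsIntervalOrder, fun A hA B hB => ?_⟩
    rw [← Set.disjoint_iff_inter_eq_empty]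
    exact disjoint_or_cover hr hA hB
  · rintro ⟨D, V, φ, h, hs⟩
    refine ⟨_, h.isSemiorder fun A hA B hB => ?_, h.topology_eq⟩
    rw [Set.disjoint_iff_inter_eq_empty]
    exact hs A hA B hB
  · rintro ⟨r, hr, rfl⟩
    exact ⟨_, _, isBiScale_of_intervalOrder hr.toIsIntervalOrder,
      fun x y Rx Gx Ry Gy h1 h2 h3 h4 => semi_condition hr h1 h2 h3 h4⟩
  · rintro ⟨A, φ, h, hs⟩
    exact ⟨h.rel, h.isSemiorder hs, h.topology_eq⟩

end Pool.Agent.Results.MP_d11cf5_gt.Semiorders
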