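import Pool.Agent.Lib.MP_d11cf5_gt.T1Structure
import Pool.Agent.Lib.MP_d11cf5_gt.GeneralizedOrdered

/-!
# `T₁` topologies induced by interval orders and semiorders

For a `T₁` topology `τ` the following are equivalent: `τ` is induced by an interval order; `τ` is
induced by a semiorder; there is a total order whose open rays are `τ`-open, such that the `τ`-open
initial and final segments form a subbasis of `τ` and there is an order reversing bijection `φ` from
the open initial segments onto the open final segments with `φ (←, x) ⊆ (x, →)`. If moreover `τ` is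
compact or connected, this holds if and only if `τ` is the order topology of a total order.
-/

set_option autoImplicit false

namespace Pool.Agent.Results.MP_d11cf5_gt.T1Spaces

open Pool.Agent.Lib.MP_d11cf5_gt

theorem result {X : Type*} (τ : TopologicalSpace X) (h : T1Space X) :
    ((∃ r : X → X → Prop, IsIntervalOrder r ∧ τ = relTopology r) ↔
      ∃ s : X → X → Prop, IsDualOrder τ s) ∧
    ((∃ r : X → X → Prop, IsSemiorder r ∧ τ = relTopology r) ↔
      ∃ s : X → X → Prop, IsDualOrder τ s) ∧
    (CompactSpace X ∨ PreconnectedSpace X →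
      ((∃ r : X → X → Prop, IsIntervalOrder r ∧ τ = relTopology r) ↔ IsOrderable τ)) := by
  have key : (∃ s : X → X → Prop, IsDualOrder τ s) →
      ∃ r : X → X → Prop, IsSemiorder r ∧ τ = relTopology r := by
    rintro ⟨s, hs⟩
    obtain ⟨D, V, φ, hc⟩ := T1S.isDualChains_of hs
    have h1 : @T1Space X (TopologicalSpace.generateFrom (D ∪ V)) := by
      rw [← hc.subbasis]
      exact h
    exact ⟨_, hc.isSemiorder fun A hA B hB =>
      disjoint_or_cover_of_t1 hc.chain_left hc.chain_right h1 hA hB, hc.topology_eq⟩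
  refine ⟨⟨?_, ?_⟩, ⟨?_, key⟩, ?_⟩
  · rintro ⟨r, hr, rfl⟩
    exact ⟨_, t1_isDualOrder hr h⟩
  · intro hs
    obtain ⟨r, hr, h1⟩ := key hs
    exact ⟨r, hr.toIsIntervalOrder, h1⟩
  · rintro ⟨r, hr, rfl⟩
    exact ⟨_, t1_isDualOrder hr.toIsIntervalOrder h⟩
  · intro h2
    constructor
    · rintro ⟨r, hr, rfl⟩
      exact t1_orderable' hr h h2
    · rintro ⟨s, ⟨htot, htrans⟩, -, rfl⟩
      refine ⟨strict s, ⟨fun x hx => hx.2 hx.1, ?_⟩, rfl⟩
      rintro x y z w ⟨hxy, hyx⟩ ⟨hzw, hwz⟩
      by_cases h3 : s y z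
      · left
        exact ⟨htrans _ _ _ hxy (htrans _ _ _ h3 hzw), fun h4 => hyx
          (htrans _ _ _ h3 (htrans _ _ _ hzw h4))⟩
      · right
        exact ⟨(htot y z).resolve_left h3, h3⟩

end Pool.Agent.Results.MP_d11cf5_gt.T1Spaces
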